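import Pool.Agent.P.MP_5aaff8_an.Proj.Fin

/-! Failure of unique continuation of low rank, both for `Du` and for the differential of the
projected map `Π ∘ u`, for minimizing constraint maps whose obstacle is any ellipsoid that is not
a ball. -/

namespace Pool.Agent.Results.MP_5aaff8_an.ProjectedRankEllipsoids

open Pool.Agent.P.MP_5aaff8_an

theorem result (n m : ℕ) (hn : 2 ≤ n) (hm : 3 ≤ m) (l : Fin m → ℝ) (hl : ∀ a, 0 < l a)
    (hne : ∃ a b, l a ≠ l b) :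
    ∃ (Pr : EuclideanSpace ℝ (Fin m) → EuclideanSpace ℝ (Fin m))
      (c : EuclideanSpace ℝ (Fin n)) (r : ℝ)
      (u : EuclideanSpace ℝ (Fin n) → EuclideanSpace ℝ (Fin m))
      (Du : EuclideanSpace ℝ (Fin n) → Matrix (Fin m) (Fin n) ℝ),
      IsNearestProj (ellipsoid l) Pr ∧ 0 < r ∧ Continuous u ∧
      IsMinimizingConstraintMap (Metric.ball c r) (ellipsoid l)ᶜ u Du ∧
      (∃ U, IsOpen U ∧ U.Nonempty ∧ U ⊆ Metric.ball c r ∧ ∀ x ∈ U, u x ∈ (ellipsoid l)ᶜ ∧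
        (Du x).rank ≤ 1 ∧ DifferentiableAt ℝ (Pr ∘ u) x ∧ (jac (Pr ∘ u) x).rank ≤ 1) ∧
      (∃ V, IsOpen V ∧ V.Nonempty ∧ V ⊆ Metric.ball c r ∧ ∀ x ∈ V,
        2 ≤ (Du x).rank ∧ DifferentiableAt ℝ (Pr ∘ u) x ∧ 2 ≤ (jac (Pr ∘ u) x).rank) := by
  obtain ⟨a1, a2, h12⟩ := hne
  obtain ⟨a0, h0⟩ : ∃ a0 : Fin m, a0 ∉ ({a1, a2} : Finset (Fin m)) := by
    by_contra h
    have h1 : (Finset.univ : Finset (Fin m)) ⊆ {a1, a2} := fun a _ =>
      not_not.mp fun ha => h ⟨a, ha⟩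
    have h2 := (Finset.card_le_card h1).trans Finset.card_le_two
    rw [Finset.card_univ, Fintype.card_fin] at h2
    omega
  rw [Finset.mem_insert, Finset.mem_singleton, not_or] at h0
  obtain ⟨Pr, hPr⟩ := exists_proj l
  obtain ⟨c, r, u, Du, h⟩ := main (n := n) (i0 := ⟨0, by omega⟩) (i1 := ⟨1, by omega⟩) (by simp)
    hl (Ne.symm h0.1) (Ne.symm h0.2) h12 hPr
  exact ⟨Pr, c, r, u, Du, hPr, h⟩

end Pool.Agent.Results.MP_5aaff8_an.ProjectedRankEllipsoids
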