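import Pool.Agent.P.MP_5aaff8_an.Final

/-! Failure of unique continuation of low rank for minimizing constraint maps whose obstacle is the
closed unit ball. -/

namespace Pool.Agent.Results.MP_5aaff8_an.RankCounterexample

open Pool.Agent.P.MP_5aaff8_an

theorem result (n m : ℕ) (hn : 2 ≤ n) (hm : 2 ≤ m) :
    ∃ (c : EuclideanSpace ℝ (Fin n)) (r : ℝ)
      (u : EuclideanSpace ℝ (Fin n) → EuclideanSpace ℝ (Fin m))
      (Du : EuclideanSpace ℝ (Fin n) → Matrix (Fin m) (Fin n) ℝ),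
      0 < r ∧
      IsMinimizingConstraintMap (Metric.ball c r)
        (Metric.closedBall (0 : EuclideanSpace ℝ (Fin m)) 1)ᶜ u Du ∧
      (∃ U, IsOpen U ∧ U.Nonempty ∧ U ⊆ Metric.ball c r ∧
        ∀ x ∈ U, u x ∈ (Metric.closedBall (0 : EuclideanSpace ℝ (Fin m)) 1)ᶜ ∧ (Du x).rank ≤ 1) ∧
      (∃ V, IsOpen V ∧ V.Nonempty ∧ V ⊆ Metric.ball c r ∧ ∀ x ∈ V, 2 ≤ (Du x).rank) := by
  let i0 : Fin n := ⟨0, by omega⟩
  let i1 : Fin n := ⟨1, by omega⟩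
  let a0 : Fin m := ⟨0, by omega⟩
  let a1 : Fin m := ⟨1, by omega⟩
  have h01 : i0 ≠ i1 := by simp [i0, i1]
  have ha : a0 ≠ a1 := by simp [a0, a1]
  refine ⟨pt i0 i1 (1 / 4) (-1 / 4), 1 / 3, uu i0 i1 a0 a1, DD i0 i1 a0 a1, by norm_num,
    isMin h01 ha,
    ⟨Metric.ball (pt i0 i1 (1 / 4) (-1 / 4)) (1 / 3) ∩ {x | x i0 < 0}, ?_,
      ⟨pt i0 i1 (-1 / 20) (-1 / 4), pt_mem h01 (by norm_num), ?_⟩, Set.inter_subset_left,
      fun x hx => low_rank h01 ha hx.1 hx.2⟩,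
    ⟨Metric.ball (pt i0 i1 (1 / 4) (-1 / 4)) (1 / 3) ∩ {x | 0 < x i1}, ?_,
      ⟨pt i0 i1 (1 / 4) (1 / 20), pt_mem h01 (by norm_num), ?_⟩, Set.inter_subset_left,
      fun x hx => high_rank h01 ha hx.1 hx.2⟩⟩
  · exact Metric.isOpen_ball.inter (isOpen_lt (by fun_prop) continuous_const)
  · rw [Set.mem_setOf_eq, pt_0]; norm_num
  · exact Metric.isOpen_ball.inter (isOpen_lt continuous_const (by fun_prop))
  · rw [Set.mem_setOf_eq, pt_1 h01]; norm_num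

end Pool.Agent.Results.MP_5aaff8_an.RankCounterexample
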